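import Pool.Agent.helper34.MO.SpecA

set_option autoImplicit false

/-! Row mo:PHS of the project MO (MP_0631c5_co): elimination of one index. -/

open Complex Finset

namespace Pool.Agent.MO

/-- the Schur complement of an accretive matrix is accretive -/
theorem PHS_acc (F : ℕ → ℕ → ℂ) (S : Finset ℕ) (k : ℕ) (hk : k ∉ S) (h : AccS F (insert k S))
    (h0 : F k k ≠ 0) : AccS (sch F k) S := by
  rintro x ⟨i, hi, hxi⟩
  obtain ⟨z, hz⟩ : ∃ z : ℕ → ℂ, z = fun j => if j = k then -(∑ j ∈ S, F k j * x j) / F k k else x j :=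
    ⟨_, rfl⟩
  have hzk : z k = -(∑ j ∈ S, F k j * x j) / F k k := by rw [hz]; simp
  have hzS : ∀ j ∈ S, z j = x j := by
    intro j hj
    have hjk : j ≠ k := fun e => hk (e ▸ hj)
    rw [hz]
    simp [hjk]
  have h1 := h z ⟨i, Finset.mem_insert_of_mem hi, by rw [hzS i hi]; exact hxi⟩
  have h2 : ∑ i ∈ insert k S, ∑ j ∈ insert k S, (starRingEnd ℂ) (z i) * F i j * z j =
      ∑ i ∈ S, ∑ j ∈ S, (starRingEnd ℂ) (x i) * sch F k i j * x j := by
    rw [Finset.sum_insert hk]
    have e1 : ∑ j ∈ insert k S, (starRingEnd ℂ) (z k) * F k j * z j = 0 := by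
      have e3 : ∑ j ∈ insert k S, (starRingEnd ℂ) (z k) * F k j * z j =
          (starRingEnd ℂ) (z k) * (F k k * z k + ∑ j ∈ S, F k j * x j) := by
        rw [Finset.sum_insert hk, mul_add, Finset.mul_sum, mul_assoc]
        congr 1
        exact Finset.sum_congr rfl fun j hj => by rw [hzS j hj, mul_assoc]
      rw [e3, hzk]
      have e4 : F k k * (-(∑ j ∈ S, F k j * x j) / F k k) + ∑ j ∈ S, F k j * x j = 0 := by
        field_simp
        ring
      rw [e4, mul_zero]
    rw [e1, zero_add]
    refine Finset.sum_congr rfl fun i hi => ?_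
    rw [Finset.sum_insert hk, hzS i hi, hzk]
    have e5 : ∑ j ∈ S, (starRingEnd ℂ) (x i) * F i j * z j =
        ∑ j ∈ S, (starRingEnd ℂ) (x i) * F i j * x j :=
      Finset.sum_congr rfl fun j hj => by rw [hzS j hj]
    have e6 : (starRingEnd ℂ) (x i) * F i k * (-(∑ j ∈ S, F k j * x j) / F k k) =
        - ∑ j ∈ S, (starRingEnd ℂ) (x i) * (F i k * F k j / F k k) * x j := by
      rw [neg_div, mul_neg, Finset.sum_div, Finset.mul_sum]
      exact congrArg Neg.neg (Finset.sum_congr rfl fun j _ => by ring)
    rw [e5, e6, neg_add_eq_sub, ← Finset.sum_sub_distrib]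
    refine Finset.sum_congr rfl fun j _ => ?_
    unfold sch
    ring
  rw [h2] at h1
  exact h1

/-- the Schur determinant formula -/
theorem PHS_det (F : ℕ → ℕ → ℂ) (S : Finset ℕ) (k : ℕ) (hk : k ∉ S) (h0 : F k k ≠ 0) :
    detS F (insert k S) = F k k * detS (sch F k) S := by
  classical
  let e : {i // i ∈ insert k S} ≃ {i // i ∈ S} ⊕ PUnit.{1} :=
    (Finset.subtypeInsertEquivOption hk).trans (Equiv.optionEquivSumPUnit _)
  let B : Matrix {i // i ∈ S} PUnit.{1} ℂ := Matrix.of fun i _ => F i.1 k
  let C : Matrix PUnit.{1} {i // i ∈ S} ℂ := Matrix.of fun _ j => F k j.1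
  let D : Matrix PUnit.{1} PUnit.{1} ℂ := Matrix.of fun _ _ => F k k
  have hD : D.det = F k k := by
    rw [Matrix.det_unique]
    rfl
  have hDu : IsUnit D.det := by
    rw [hD]
    exact isUnit_iff_ne_zero.2 h0
  let _ : Invertible D := Matrix.invertibleOfIsUnitDet D hDu
  have hinv : ∀ a b, (⅟D) a b = (F k k)⁻¹ := by
    intro a b
    have h1 : D * ⅟D = 1 := mul_invOf_self D
    have h2 := congrFun (congrFun h1 a) b
    have hab : a = b := Subsingleton.elim a b
    rw [Matrix.mul_apply, Fintype.sum_unique, hab, Matrix.one_apply_eq] at h2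
    have h3 : D b default = F k k := rfl
    have h4 : (default : PUnit.{1}) = a := Subsingleton.elim _ _
    rw [h3, h4] at h2
    rw [← hab] at h2 ⊢
    exact eq_inv_of_mul_eq_one_right h2
  have h1 : mS F (insert k S) = (Matrix.fromBlocks (mS F S) B C D).submatrix e e := by
    ext x y
    have key : ∀ x : {i // i ∈ insert k S}, (∃ hx : x.1 ∈ S, e x = Sum.inl ⟨x.1, hx⟩) ∨
        (x.1 = k ∧ e x = Sum.inr PUnit.unit) := by
      intro x
      by_cases hx : x.1 = k
      · right
        refine ⟨hx, ?_⟩
        show (Equiv.optionEquivSumPUnit _) ((Finset.subtypeInsertEquivOption hk) x) = _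
        have : (Finset.subtypeInsertEquivOption hk) x = none := by
          simp [Finset.subtypeInsertEquivOption, hx]
        rw [this]
        rfl
      · left
        have hxS : x.1 ∈ S := (Finset.mem_insert.1 x.2).resolve_left hx
        refine ⟨hxS, ?_⟩
        show (Equiv.optionEquivSumPUnit _) ((Finset.subtypeInsertEquivOption hk) x) = _
        have : (Finset.subtypeInsertEquivOption hk) x = some ⟨x.1, hxS⟩ := by
          simp [Finset.subtypeInsertEquivOption, hx]
        rw [this]
        rfl
    rw [Matrix.submatrix_apply]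
    rcases key x with ⟨hx, ex⟩ | ⟨hx, ex⟩ <;> rcases key y with ⟨hy, ey⟩ | ⟨hy, ey⟩ <;>
      rw [ex, ey]
    · rfl
    · show F x.1 y.1 = F x.1 k
      rw [hy]
    · show F x.1 y.1 = F k y.1
      rw [hx]
    · show F x.1 y.1 = F k k
      rw [hx, hy]
  have h2 : mS F S - B * ⅟D * C = mS (sch F k) S := by
    ext x y
    rw [Matrix.sub_apply, Matrix.mul_apply, Fintype.sum_unique, Matrix.mul_apply,
      Fintype.sum_unique, hinv]
    show F x.1 y.1 - F x.1 k * (F k k)⁻¹ * F k y.1 = F x.1 y.1 - F x.1 k * F k y.1 / F k k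
    rw [div_eq_mul_inv]
    ring
  unfold detS
  rw [h1, Matrix.det_submatrix_equiv_self, Matrix.det_fromBlocks₂₂, hD, h2]

/-- **PHS** -/
theorem PHS (hPHE : PHE_stmt) (hPHP : PHP_stmt) : PHS_stmt := by
  classical
  obtain ⟨he1, he2, -, -, he5⟩ := hPHE
  have hre : ∀ (F : ℕ → ℕ → ℂ) (S : Finset ℕ) (k : ℕ), AccS F (insert k S) → 0 < (F k k).re := by
    intro F S k h
    have h1 : AccS F (insert k ∅) := by
      refine he5 F _ _ ?_ h
      intro i hi
      rcases Finset.mem_insert.1 hi with h2 | h2
      · rw [h2]; exact Finset.mem_insert_self k S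
      · exact absurd h2 (Finset.notMem_empty i)
    have h2 := (hPHP F ∅ k (Finset.notMem_empty k) h1).2.1
    have h3 : detS F (insert k ∅) = F k k := (he2 F k).2
    rw [h3, (he1 F).2, div_one] at h2
    exact h2
  have hne : ∀ (F : ℕ → ℕ → ℂ) (S : Finset ℕ) (k : ℕ), AccS F (insert k S) → F k k ≠ 0 := by
    intro F S k h h0
    have h1 := hre F S k h
    rw [h0] at h1
    exact lt_irrefl _ h1
  have hph : ∀ (F : ℕ → ℕ → ℂ) (k : ℕ) (S : Finset ℕ), k ∉ S → AccS F (insert k S) →
      phS F (insert k S) = arg (F k k) + phS (sch F k) S := by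
    intro F k S
    induction S using Finset.induction_on with
    | empty =>
      intro _ h
      have h1 : phS F (insert k ∅) = arg (F k k) := (he2 F k).1
      rw [h1, (he1 (sch F k)).1, add_zero]
    | insert w S hw ih =>
      intro hk h
      have hkw : k ≠ w := fun e => hk (e ▸ Finset.mem_insert_self w S)
      have hkS : k ∉ S := fun e => hk (Finset.mem_insert_of_mem e)
      have h0 := hne F _ k h
      have hcomm : insert k (insert w S) = insert w (insert k S) := Finset.insert_comm k w S
      have h1 : AccS F (insert k S) := he5 F _ _ (by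
        rw [hcomm]; exact Finset.subset_insert w _) h
      have h2 := ih hkS h1
      have hwk : w ∉ insert k S := by
        intro e
        rcases Finset.mem_insert.1 e with e | e
        · exact hkw e.symm
        · exact hw e
      have h3 := hPHP F (insert k S) w hwk (hcomm ▸ h)
      have h4 := hPHP (sch F k) S w hw (PHS_acc F _ k hk h h0)
      have h5 : detS F (insert w (insert k S)) / detS F (insert k S) =
          detS (sch F k) (insert w S) / detS (sch F k) S := by
        rw [← hcomm, PHS_det F _ k hk h0, PHS_det F _ k hkS h0]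
        exact mul_div_mul_left _ _ h0
      rw [hcomm, h3.2.2, h2, h4.2.2, h5, add_assoc]
  intro F S k hk h
  have h0 := hne F S k h
  exact ⟨hre F S k h, PHS_acc F S k hk h h0, hph F k S hk h, PHS_det F S k hk h0⟩

end Pool.Agent.MO
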